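import Pool.Agent.T6.H33.EC.Transfer

/-! # One model of a finite extension of each finitely generated field -/

set_option autoImplicit false

open AlgebraicGeometry CategoryTheory TopologicalSpace

namespace Pool.Agent.T6.H33.EC

theorem isReduced_vanishing (X : Scheme.{0}) (C : Closeds X) :
    IsReduced (Scheme.IdealSheafData.vanishingIdeal C).subscheme := by
  have : ∀ i, IsReduced ((Scheme.IdealSheafData.vanishingIdeal C).subschemeCover.openCover.X i) := by
    intro (U : X.affineOpens)
    have h1 : ((Scheme.IdealSheafData.vanishingIdeal C).ideal U).IsRadical := by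
      rw [Scheme.IdealSheafData.vanishingIdeal_ideal]
      exact PrimeSpectrum.isRadical_vanishingIdeal _
    have h2 : _root_.IsReduced (Γ(X, U) ⧸ (Scheme.IdealSheafData.vanishingIdeal C).ideal U) :=
      (Ideal.isRadical_iff_quotient_reduced _).mp h1
    change IsReduced (Spec (.of (Γ(X, U) ⧸ (Scheme.IdealSheafData.vanishingIdeal C).ideal U)))
    have h3 : _root_.IsReduced (CommRingCat.of (Γ(X, U) ⧸ (Scheme.IdealSheafData.vanishingIdeal C).ideal U)) := h2
    infer_instance
  exact IsReduced.of_openCover _ (Scheme.IdealSheafData.vanishingIdeal C).subschemeCover.openCover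

theorem irreducible_of_embedding {A B : Type} [TopologicalSpace A] [TopologicalSpace B] {f : A → B}
    (hf : Topology.IsEmbedding f) (h : IsIrreducible (Set.range f)) : IrreducibleSpace A := by
  obtain ⟨⟨_, ⟨a, rfl⟩⟩, h2⟩ := h
  have : Nonempty A := ⟨a⟩
  refine { isPreirreducible_univ := ?_, toNonempty := ⟨a⟩ }
  rintro _ _ hu hv ⟨x, -, hx⟩ ⟨y, -, hy⟩
  obtain ⟨u, hu', rfl⟩ := hf.isInducing.isOpen_iff.mp hu
  obtain ⟨v, hv', rfl⟩ := hf.isInducing.isOpen_iff.mp hv
  obtain ⟨_, ⟨z, rfl⟩, hz⟩ := h2 u v hu' hv' ⟨_, ⟨x, rfl⟩, hx⟩ ⟨_, ⟨y, rfl⟩, hy⟩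
  exact ⟨z, trivial, hz⟩

theorem exists_integral (X : Scheme.{0}) (C : Closeds X) (hC : IsIrreducible (C : Set X)) :
    ∃ (Z : Scheme.{0}) (f : Z ⟶ X), IsClosedImmersion f ∧ IsIntegral Z ∧ Set.range f = C := by
  have hr : Set.range (Scheme.IdealSheafData.vanishingIdeal C).subschemeι = C := by
    rw [Scheme.IdealSheafData.range_subschemeι, Scheme.IdealSheafData.coe_support_vanishingIdeal]
  refine ⟨_, (Scheme.IdealSheafData.vanishingIdeal C).subschemeι, inferInstance, ?_, hr⟩
  have h1 := isReduced_vanishing X C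
  have h2 : IrreducibleSpace (Scheme.IdealSheafData.vanishingIdeal C).subscheme := by
    refine irreducible_of_embedding (Scheme.IdealSheafData.vanishingIdeal C).subschemeι.isEmbedding ?_
    rw [hr]
    exact hC
  exact isIntegral_of_irreducibleSpace_of_isReduced _

theorem spec_int_arithmetic : IsArithmetic (Spec (.of ℤ)) :=
  ⟨𝟙 _, inferInstance, inferInstance, inferInstance⟩

instance spec_int_integral : IsIntegral (Spec (.of ℤ)) := inferInstance

namespace CycleTheory

variable {T : CycleTheory} (hT : T.HasLocalisation) (hR : T.HasTransfer)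

include hT in
theorem finite_empty_of_covers {n : ℤ} (hn : n < 0) (hA : T.HasGoodCovers n) (Y : Scheme.{0}) (hY : IsEmpty Y) :
    T.Finite Y n := by
  obtain ⟨W, hW, -, -, hWf⟩ := hA _ spec_int_arithmetic inferInstance
  have hd : IsDecomposition (𝟙 W) (⊥ : W.Opens).ι := by
    refine ⟨inferInstance, inferInstance, ?_⟩
    rw [Scheme.Opens.range_ι]
    simp
  have h1 := finite_open hT hW hd hn hWf hWf
  have h2 : IsEmpty (⊥ : W.Opens).toScheme := ⟨fun x => x.2⟩
  exact finite_iso hT (isInitialOfIsEmpty.uniqueUpToIso isInitialOfIsEmpty) h1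

include hT in
/-- it is enough to treat the integral closed subschemes -/
theorem finite_of_integral {n : ℤ} (hn : n < 0) (h0 : ∀ Y : Scheme.{0}, IsEmpty Y → T.Finite Y n) (X : Scheme.{0})
    (hX : IsArithmetic X) (h : ∀ (Z : Scheme.{0}) (f : Z ⟶ X), IsClosedImmersion f → IsIntegral Z → T.Finite Z n) :
    T.Finite X n := by
  have hnoeth := hX.isNoetherian
  have hwf : WellFoundedLT (Closeds X) := inferInstance
  have key : ∀ (C : Closeds X) (Y : Scheme.{0}) (y : Y ⟶ X), IsClosedImmersion y → Set.range y = C → T.Finite Y n := by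
    intro C
    induction C using hwf.induction with
    | ind C ih =>
      intro Y y hy hr
      have hYa := hX.closed y hy
      rcases isEmpty_or_nonempty Y with hY | hY
      · exact h0 Y hY
      by_cases hirr : IsIrreducible (Set.univ : Set Y)
      · obtain ⟨X', x', hx', hX'i, hx'r⟩ := exists_integral Y ⊤ hirr
        have hsurj : Surjective x' := ⟨fun z => by
          have : z ∈ Set.range x' := by rw [hx'r]; trivial
          exact this⟩
        exact finite_surjective hT x' hx' hsurj hYa hn h0 (h X' (x' ≫ y) inferInstance hX'i)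
      · have hex : ∃ U₁ U₂ : Y.Opens, (U₁ : Set Y).Nonempty ∧ (U₂ : Set Y).Nonempty ∧ U₁ ⊓ U₂ = ⊥ := by
          by_contra hcon
          apply hirr
          refine ⟨Set.univ_nonempty, fun u v hu hv ⟨a, _, ha⟩ ⟨b, _, hb⟩ => ?_⟩
          by_contra hne
          apply hcon
          refine ⟨⟨u, hu⟩, ⟨v, hv⟩, ⟨a, ha⟩, ⟨b, hb⟩, ?_⟩
          refine SetLike.ext fun z => ⟨fun hz => absurd ⟨z, trivial, hz⟩ hne, fun hz => absurd hz (by simp)⟩
        obtain ⟨U₁, U₂, hU₁, hU₂, hU⟩ := hex
        have aux : ∀ (U : Y.Opens), (U : Set Y).Nonempty → ∀ (Z : Scheme.{0}) (f : Z ⟶ Y), IsClosedImmersion f →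
            Set.range f ⊆ (U : Set Y)ᶜ → T.Finite Z n := by
          rintro U ⟨u, hu⟩ Z f hf hfr
          refine ih ⟨Set.range (f ≫ y), (f ≫ y).isClosedEmbedding.isClosed_range⟩ ?_ Z (f ≫ y) inferInstance rfl
          refine lt_of_le_of_ne ?_ ?_
          · rintro _ ⟨z, rfl⟩
            have : y (f z) ∈ Set.range y := ⟨_, rfl⟩
            rw [hr] at this
            exact this
          · intro heq
            have h2 : y u ∈ (C : Set X) := by rw [← hr]; exact ⟨_, rfl⟩
            rw [← heq] at h2
            obtain ⟨z, hz⟩ := h2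
            have h3 : f z = u := y.isClosedEmbedding.injective hz
            exact hfr ⟨z, rfl⟩ (by rw [h3]; exact hu)
        exact finite_union hT hYa hn h0 U₁ U₂ hU (aux U₁ hU₁) (aux U₂ hU₂)
  exact key ⊤ X (𝟙 X) inferInstance (by simp)

include hT hR in
/-- integral schemes, by induction on the dimension -/
theorem finite_of_dim {n : ℤ} (hn : n < 0) (dim : Scheme.{0} → ℕ) (hdim : IsDimension dim) (hA : T.HasGoodCovers n) (d : ℕ) :
    ∀ X : Scheme.{0}, IsArithmetic X → IsIntegral X → dim X = d → T.Finite X n := by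
  have h0 := finite_empty_of_covers hT hn hA
  induction d using Nat.strong_induction_on with
  | _ d ihd =>
    intro X hX hXi hXd
    obtain ⟨W, hWa, hWi, ⟨V, U, j, g, π, hj, hg, hUne, hπ1, hπ2, hπ3⟩, hWf⟩ := hA X hX hXi
    have hUi : IsIntegral U := isIntegral_of_isOpenImmersion g
    have hUa := hX.opens g hg
    have hVne : Nonempty V := by
      obtain ⟨u⟩ := hUne
      obtain ⟨v, -⟩ := hπ3.surj u
      exact ⟨v⟩
    have hVi : IsIntegral V := isIntegral_of_isOpenImmersion j
    have hdW : dim W = dim X := by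
      rw [← hdim.isOpen j hj hWa hWi hVne, hdim.finite π hUa hVi hUi hπ1 hπ3, hdim.isOpen g hg hX hXi hUne]
    -- closed subschemes which do not meet a nonempty open subscheme
    have aux : ∀ (Y O : Scheme.{0}) (k : O ⟶ Y) [IsOpenImmersion k], IsArithmetic Y → IsIntegral Y → Nonempty O → dim Y = d →
        ∀ (C' : Scheme.{0}) (c : C' ⟶ Y), IsClosedImmersion c → Set.range c = (k.opensRange : Set Y)ᶜ → T.Finite C' n := by
      intro Y O k hk hYa hYi hO hYd C' c hc hcr
      refine finite_of_integral hT hn h0 C' (hYa.closed c hc) fun Z f hf hZ => ?_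
      have h1 : dim Z < dim Y := by
        refine hdim.closed (f ≫ c) inferInstance hYa hYi hZ fun hs => ?_
        obtain ⟨o⟩ := hO
        obtain ⟨z, hz⟩ := hs.surj (k o)
        have h2 : c (f z) ∈ (k.opensRange : Set Y)ᶜ := by rw [← hcr]; exact ⟨f z, rfl⟩
        have h3 : c (f z) = k o := hz
        rw [h3] at h2
        exact h2 ⟨o, rfl⟩
      exact ihd (dim Z) (by omega) Z ((hYa.closed c hc).closed f hf) hZ rfl
    have hV : T.Finite V n := by
      obtain ⟨C', c, hc, hcr⟩ := exists_closed W j.opensRange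
      have hd : IsDecomposition c j := ⟨hc, hj, by rw [hcr, compl_compl]; rfl⟩
      exact finite_open hT hWa hd hn (aux W V j hWa hWi hVne (by omega) C' c hc hcr) hWf
    have hU : T.Finite U n := finite_transfer hR π hUa hUi hπ1 hπ2 hπ3 hn hV
    obtain ⟨C', c, hc, hcr⟩ := exists_closed X g.opensRange
    have hd : IsDecomposition c g := ⟨hc, hg, by rw [hcr, compl_compl]; rfl⟩
    exact finite_middle hT hX hd hn (aux X U g hX hXi hUne hXd C' c hc hcr) hU

include hT hR in
theorem finite_of_covers {n : ℤ} (hn : n < 0) (dim : Scheme.{0} → ℕ) (hdim : IsDimension dim) (hA : T.HasGoodCovers n)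
    (X : Scheme.{0}) (hX : IsArithmetic X) : T.Finite X n :=
  finite_of_integral hT hn (finite_empty_of_covers hT hn hA) X hX fun Z f hf hZ =>
    finite_of_dim hT hR hn dim hdim hA _ Z (hX.closed f hf) hZ rfl

include hT hR in
/-- **The reduction to one model.** -/
theorem finiteGeneration_iff_covers (hL : T.HasAffineLine) (dim : Scheme.{0} → ℕ) (hdim : IsDimension dim) :
    T.FiniteGeneration ↔ T.HasGoodCovers (-1) := by
  constructor
  · intro h X hX hXi
    refine ⟨X, hX, hXi, ⟨X, X, 𝟙 X, 𝟙 X, 𝟙 X, inferInstance, inferInstance, inferInstance, inferInstance, inferInstance,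
      inferInstance⟩, fun i => h X hX _ i (by norm_num)⟩
  · intro h
    rw [finiteGeneration_iff hT hL]
    intro i₀
    exact ⟨i₀, le_rfl, fun N f => finite_of_covers hT hR (by norm_num) dim hdim h _ (isArithmetic_spec _ (finiteType_away f)) _⟩

include hT hR in
theorem finiteGeneration_iff_models (hL : T.HasAffineLine) (dim : Scheme.{0} → ℕ) (hdim : IsDimension dim)
    (N : Set Scheme.{0}) (hN : HasModels N) :
    T.FiniteGeneration ↔ ∀ W ∈ N, IsArithmetic W → IsIntegral W → T.Finite W (-1) := by
  constructor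
  · intro h W _ hW _ i
    exact h W hW _ i (by norm_num)
  · intro h
    refine (finiteGeneration_iff_covers hT hR hL dim hdim).mpr fun X hX hXi => ?_
    obtain ⟨W, hWN, hW, hWi, hWX⟩ := hN X hX hXi
    exact ⟨W, hW, hWi, hWX, h W hWN hW hWi⟩

end CycleTheory

end Pool.Agent.T6.H33.EC
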