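import Pool.Agent.T6.H33.EC.Defs

/-! # Finite generation and the localisation sequences -/

set_option autoImplicit false

open AlgebraicGeometry CategoryTheory

namespace Pool.Agent.T6.H33.EC

theorem fg_of_exact {A B C : Type} [AddCommGroup A] [AddCommGroup B] [AddCommGroup C] (f : A →+ B) (g : B →+ C)
    (h : Function.Exact f g) (hA : AddGroup.FG A) (hC : AddGroup.FG C) : AddGroup.FG B := by
  rw [← Module.Finite.iff_addGroup_fg] at hA hC ⊢
  have hex : Function.Exact f.toIntLinearMap g.toIntLinearMap := h
  have h1 : (LinearMap.ker g.toIntLinearMap).FG := by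
    rw [LinearMap.exact_iff.mp hex]
    exact Module.Finite.fg_top.map f.toIntLinearMap |> fun h => by rwa [Submodule.map_top] at h
  have h2 : (LinearMap.range g.toIntLinearMap).FG := IsNoetherian.noetherian _
  refine ⟨Submodule.fg_of_fg_map_of_fg_inf_ker g.toIntLinearMap ?_ ?_⟩
  · rwa [Submodule.map_top]
  · rwa [top_inf_eq]

theorem fg_of_equiv {A B : Type} [AddCommGroup A] [AddCommGroup B] (e : A ≃+ B) (h : AddGroup.FG A) : AddGroup.FG B := by
  rw [← Module.Finite.iff_addGroup_fg] at h ⊢
  exact Module.Finite.equiv e.toIntLinearEquiv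

theorem fg_of_surjective {A B : Type} [AddCommGroup A] [AddCommGroup B] (f : A →+ B) (hf : Function.Surjective f)
    (h : AddGroup.FG A) : AddGroup.FG B := by
  rw [← Module.Finite.iff_addGroup_fg] at h ⊢
  exact Module.Finite.of_surjective f.toIntLinearMap hf

/-! ## arithmetic schemes -/

theorem IsArithmetic.of_hom {X Y : Scheme.{0}} (hX : IsArithmetic X) (f : Y ⟶ X) (h1 : IsSeparated f)
    (h2 : LocallyOfFiniteType f) (h3 : QuasiCompact f) : IsArithmetic Y := by
  obtain ⟨g, g1, g2, g3⟩ := hX
  exact ⟨f ≫ g, inferInstance, inferInstance, inferInstance⟩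

theorem IsArithmetic.isNoetherian {X : Scheme.{0}} (hX : IsArithmetic X) : IsNoetherian X := by
  obtain ⟨g, g1, g2, g3⟩ := hX
  have h1 : IsLocallyNoetherian X := LocallyOfFiniteType.isLocallyNoetherian g
  have h2 : CompactSpace X := QuasiCompact.compactSpace_of_compactSpace g
  exact { }

theorem IsArithmetic.closed {X Z : Scheme.{0}} (hX : IsArithmetic X) (f : Z ⟶ X) (h : IsClosedImmersion f) :
    IsArithmetic Z :=
  hX.of_hom f inferInstance inferInstance inferInstance

theorem IsArithmetic.opens {X U : Scheme.{0}} (hX : IsArithmetic X) (f : U ⟶ X) (h : IsOpenImmersion f) :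
    IsArithmetic U := by
  have := hX.isNoetherian
  refine hX.of_hom f inferInstance inferInstance ?_
  infer_instance

theorem isArithmetic_spec (A : Type) [CommRing A] (h : (Int.castRingHom A).FiniteType) : IsArithmetic (Spec (.of A)) := by
  refine ⟨Spec.map (CommRingCat.ofHom (Int.castRingHom A)), inferInstance, ?_, inferInstance⟩
  rw [HasRingHomProperty.Spec_iff (P := @LocallyOfFiniteType)]
  exact h

namespace CycleTheory

variable {T : CycleTheory} (hT : T.HasLocalisation)

include hT in
theorem finite_iso {X Y : Scheme.{0}} (e : X ≅ Y) {n : ℤ} (h : T.Finite X n) : T.Finite Y n := fun i => by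
  obtain ⟨e'⟩ := hT.iso e n i
  exact fg_of_equiv e' (h i)

include hT in
/-- two out of three, the whole scheme -/
theorem finite_middle {Z X U : Scheme.{0}} {f : Z ⟶ X} {g : U ⟶ X} (hX : IsArithmetic X) (hd : IsDecomposition f g) {n : ℤ}
    (hn : n < 0) (hZ : T.Finite Z n) (hU : T.Finite U n) : T.Finite X n := fun i =>
  fg_of_exact _ _ (hT.exact_push f g hX hd n i hn) (hZ i) (hU i)

include hT in
/-- two out of three, the open subscheme -/
theorem finite_open {Z X U : Scheme.{0}} {f : Z ⟶ X} {g : U ⟶ X} (hX : IsArithmetic X) (hd : IsDecomposition f g) {n : ℤ}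
    (hn : n < 0) (hZ : T.Finite Z n) (hXf : T.Finite X n) : T.Finite U n := fun i =>
  fg_of_exact _ _ (hT.exact_res f g hX hd n i hn) (hXf i) (hZ (i + 1))

include hT in
/-- two out of three, the closed subscheme -/
theorem finite_closed {Z X U : Scheme.{0}} {f : Z ⟶ X} {g : U ⟶ X} (hX : IsArithmetic X) (hd : IsDecomposition f g) {n : ℤ}
    (hn : n < 0) (hU : T.Finite U n) (hXf : T.Finite X n) : T.Finite Z n := fun i => by
  have := fg_of_exact _ _ (hT.exact_bd f g hX hd n (i - 1) hn) (hU (i - 1)) (hXf (i - 1 + 1))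
  rwa [sub_add_cancel] at this

end CycleTheory

end Pool.Agent.T6.H33.EC
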