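import Mathlib

/-! # Étale cohomology of the cycle complexes: the localisation sequences, the affine line -/

set_option autoImplicit false

open AlgebraicGeometry CategoryTheory

namespace Pool.Agent.T6.H33.EC

/-- Arithmetic schemes: separated and of finite type over `Spec ℤ`. -/
def IsArithmetic (X : Scheme.{0}) : Prop :=
  ∃ f : X ⟶ Spec (.of ℤ), IsSeparated f ∧ LocallyOfFiniteType f ∧ QuasiCompact f

/-- `f : Z ⟶ X` is a closed immersion and `g : U ⟶ X` an open immersion onto the complement of `Z`. -/
structure IsDecomposition {Z X U : Scheme.{0}} (f : Z ⟶ X) (g : U ⟶ X) : Prop where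
  closed : IsClosedImmersion f
  isOpen : IsOpenImmersion g
  compl : Set.range g = (Set.range f)ᶜ

/-- The data of a cohomology theory with the form of the groups `H^i(X_et, ℤ^c(n))`: the groups `H X n i`, the direct image
`push f` for closed immersions `f`, the restriction `res g` to open subschemes and the boundary maps `bd f g` of the localisation
sequences. (`push`, `res` and `bd` have no meaning for other morphisms.) -/
structure CycleTheory where
  H : Scheme.{0} → ℤ → ℤ → Type
  grp : ∀ X n i, AddCommGroup (H X n i)
  push : ∀ {Z X : Scheme.{0}} (_ : Z ⟶ X) (n i : ℤ), H Z n i →+ H X n i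
  res : ∀ {U X : Scheme.{0}} (_ : U ⟶ X) (n i : ℤ), H X n i →+ H U n i
  bd : ∀ {Z X U : Scheme.{0}} (_ : Z ⟶ X) (_ : U ⟶ X) (n i : ℤ), H U n i →+ H Z n (i + 1)

attribute [instance] CycleTheory.grp

namespace CycleTheory

variable (T : CycleTheory)

/-- Localisation, for `n < 0`: for a closed subscheme `Z` of the arithmetic scheme `X` with open complement `U` there is a long
exact sequence `⋯ → H^i(Z) → H^i(X) → H^i(U) → H^(i + 1)(Z) → ⋯`; isomorphic schemes have isomorphic groups. -/
structure HasLocalisation : Prop where
  iso : ∀ {X Y : Scheme.{0}}, (X ≅ Y) → ∀ n i : ℤ, Nonempty (T.H X n i ≃+ T.H Y n i)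
  exact_push : ∀ {Z X U : Scheme.{0}} (f : Z ⟶ X) (g : U ⟶ X), IsArithmetic X → IsDecomposition f g →
    ∀ n i : ℤ, n < 0 → Function.Exact (T.push f n i) (T.res g n i)
  exact_res : ∀ {Z X U : Scheme.{0}} (f : Z ⟶ X) (g : U ⟶ X), IsArithmetic X → IsDecomposition f g →
    ∀ n i : ℤ, n < 0 → Function.Exact (T.res g n i) (T.bd f g n i)
  exact_bd : ∀ {Z X U : Scheme.{0}} (f : Z ⟶ X) (g : U ⟶ X), IsArithmetic X → IsDecomposition f g →
    ∀ n i : ℤ, n < 0 → Function.Exact (T.bd f g n i) (T.push f n (i + 1))

/-- The affine line over the affine arithmetic scheme `Spec A`: `H^i(A¹, ℤ^c(n))` is isomorphic to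
`H^(i + 2)(Spec A, ℤ^c(n - 1))`, and the direct image by the zero section is zero. -/
structure HasAffineLine : Prop where
  line : ∀ (A : Type) [CommRing A], (Int.castRingHom A).FiniteType → ∀ n i : ℤ, n < 0 →
    Nonempty (T.H (Spec (.of (Polynomial A))) n i ≃+ T.H (Spec (.of A)) (n - 1) (i + 2))
  zero : ∀ (A : Type) [CommRing A], (Int.castRingHom A).FiniteType → ∀ n i : ℤ, n < 0 →
    ∀ x : T.H (Spec (.of A)) n i, T.push (Spec.map (CommRingCat.ofHom (Polynomial.evalRingHom (0 : A)))) n i x = 0

/-- Transfers and finite coefficients, for `n < 0`: for a finite flat surjective morphism `V ⟶ U` of arithmetic schemes, `U`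
integral, of degree `d`, the composition of the inverse image and of the direct image is the multiplication by `d`; the elements
of `H^i(X_et, ℤ^c(n))` killed by a positive integer `m` form a finite group (a quotient of `H^(i - 1)(X_et, ℤ/m^c(n))`). -/
structure HasTransfer : Prop where
  transfer : ∀ {V U : Scheme.{0}} (π : V ⟶ U), IsArithmetic U → IsIntegral U → IsFinite π → Flat π → Surjective π →
    ∃ d : ℕ, 0 < d ∧ ∀ n i : ℤ, n < 0 → ∃ (a : T.H U n i →+ T.H V n i) (b : T.H V n i →+ T.H U n i), ∀ x, b (a x) = d • x
  torsion : ∀ X : Scheme.{0}, IsArithmetic X → ∀ n i : ℤ, n < 0 → ∀ m : ℕ, 0 < m → Set.Finite {x : T.H X n i | m • x = 0}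

/-- Finite generation of all the groups `H^i(X_et, ℤ^c(n))`. -/
def Finite (X : Scheme.{0}) (n : ℤ) : Prop := ∀ i, AddGroup.FG (T.H X n i)

/-- Q1: for every arithmetic scheme `X`, every `n < 0` and every `i` the group `H^i(X_et, ℤ^c(n))` is finitely generated. -/
def FiniteGeneration : Prop := ∀ X : Scheme.{0}, IsArithmetic X → ∀ n i : ℤ, n < 0 → AddGroup.FG (T.H X n i)

end CycleTheory

/-- The dimension of integral arithmetic schemes: an integral closed subscheme different from the whole scheme has smaller
dimension, a nonempty open subscheme has the same dimension, and the dimension does not change under finite surjective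
morphisms. -/
structure IsDimension (dim : Scheme.{0} → ℕ) : Prop where
  closed : ∀ {Z X : Scheme.{0}} (f : Z ⟶ X), IsClosedImmersion f → IsArithmetic X → IsIntegral X → IsIntegral Z →
    ¬ Surjective f → dim Z < dim X
  isOpen : ∀ {U X : Scheme.{0}} (g : U ⟶ X), IsOpenImmersion g → IsArithmetic X → IsIntegral X → Nonempty U → dim U = dim X
  finite : ∀ {V U : Scheme.{0}} (π : V ⟶ U), IsArithmetic U → IsIntegral V → IsIntegral U → IsFinite π → Surjective π →
    dim V = dim U

/-- A nonempty open subscheme of `W` is finite and flat over a nonempty open subscheme of `X`. -/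
def IsGenericCover (W X : Scheme.{0}) : Prop :=
  ∃ (V U : Scheme.{0}) (j : V ⟶ W) (g : U ⟶ X) (π : V ⟶ U), IsOpenImmersion j ∧ IsOpenImmersion g ∧ Nonempty U ∧
    IsFinite π ∧ Flat π ∧ Surjective π

/-- Every integral arithmetic scheme has generically a finite flat cover by an open subscheme of an integral arithmetic scheme
with finitely generated groups of weight `n`. -/
def CycleTheory.HasGoodCovers (T : CycleTheory) (n : ℤ) : Prop :=
  ∀ X : Scheme.{0}, IsArithmetic X → IsIntegral X →
    ∃ W : Scheme.{0}, IsArithmetic W ∧ IsIntegral W ∧ IsGenericCover W X ∧ T.Finite W n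

/-- Every integral arithmetic scheme has generically a finite flat cover by an open subscheme of a scheme in the class `N`. For the
class of the regular schemes which are projective over `ℤ` this is a theorem of de Jong. -/
def HasModels (N : Set Scheme.{0}) : Prop :=
  ∀ X : Scheme.{0}, IsArithmetic X → IsIntegral X → ∃ W ∈ N, IsArithmetic W ∧ IsIntegral W ∧ IsGenericCover W X

end Pool.Agent.T6.H33.EC
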