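import Pool.Agent.T6.H33.EC.Union

/-! # Reduction to principal open subschemes of affine spaces -/

set_option autoImplicit false

open AlgebraicGeometry CategoryTheory TopologicalSpace

namespace Pool.Agent.T6.H33.EC

theorem finiteType_of_isArithmetic (A : CommRingCat.{0}) (h : IsArithmetic (Spec A)) : (Int.castRingHom A).FiniteType := by
  obtain ⟨f, _, hf, _⟩ := h
  obtain ⟨φ, rfl⟩ := Spec.map_surjective f
  rw [HasRingHomProperty.Spec_iff (P := @LocallyOfFiniteType)] at hf
  rwa [show Int.castRingHom A = φ.hom from Subsingleton.elim _ _]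

namespace CycleTheory

variable {T : CycleTheory} (hT : T.HasLocalisation)

include hT in
theorem finite_aff {n : ℤ} {N : ℕ}
    (h : ∀ f : MvPolynomial (Fin N) ℤ, T.Finite (Spec (.of (Localization.Away f))) n) : T.Finite (Aff N) n := by
  have h1 : (basic (1 : MvPolynomial (Fin N) ℤ)) = ⊤ := PrimeSpectrum.basicOpen_one
  have h2 := finite_iso hT (basicIso 1).symm (h 1)
  rw [h1] at h2
  exact finite_iso hT (Scheme.topIso _) h2

include hT in
theorem finite_affine {n : ℤ} (hn : n < 0)
    (h : ∀ (N : ℕ) (f : MvPolynomial (Fin N) ℤ), T.Finite (Spec (.of (Localization.Away f))) n)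
    (A : Type) [CommRing A] (hA : (Int.castRingHom A).FiniteType) : T.Finite (Spec (.of A)) n := by
  have hA' : Algebra.FiniteType ℤ A := RingHom.finiteType_algebraMap.mp
    (by rwa [show algebraMap ℤ A = Int.castRingHom A from Subsingleton.elim _ _])
  obtain ⟨N, φ, hφ⟩ := Algebra.FiniteType.iff_quotient_mvPolynomial''.mp hA'
  have hc : IsClosedImmersion (Spec.map (CommRingCat.ofHom φ.toRingHom)) := IsClosedImmersion.spec_of_surjective _ hφ
  let U : (Aff N).Opens := ⟨(Set.range (Spec.map (CommRingCat.ofHom φ.toRingHom)))ᶜ,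
    (Spec.map (CommRingCat.ofHom φ.toRingHom)).isClosedEmbedding.isClosed_range.isOpen_compl⟩
  have hd : IsDecomposition (Spec.map (CommRingCat.ofHom φ.toRingHom)) U.ι :=
    ⟨hc, inferInstance, by rw [Scheme.Opens.range_ι]; rfl⟩
  exact finite_closed hT (aff_arithmetic N) hd hn (finite_opens hT hn (h N) U) (finite_aff hT (h N))

include hT in
theorem finite_empty {n : ℤ} (h : ∀ (N : ℕ) (f : MvPolynomial (Fin N) ℤ), T.Finite (Spec (.of (Localization.Away f))) n)
    (Y : Scheme.{0}) (hY : IsEmpty Y) : T.Finite Y n := by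
  have h1 := finite_iso hT (basicIso (0 : MvPolynomial (Fin 0) ℤ)).symm (h 0 0)
  have h2 : IsEmpty (basic (0 : MvPolynomial (Fin 0) ℤ)).toScheme := ⟨fun x => x.2 (Ideal.zero_mem _)⟩
  exact finite_iso hT (isInitialOfIsEmpty.uniqueUpToIso isInitialOfIsEmpty) h1

include hT in
theorem finite_all {n : ℤ} (hn : n < 0)
    (h : ∀ (N : ℕ) (f : MvPolynomial (Fin N) ℤ), T.Finite (Spec (.of (Localization.Away f))) n)
    (X : Scheme.{0}) (hX : IsArithmetic X) : T.Finite X n := by
  have hnoeth := hX.isNoetherian
  have hwf : WellFoundedLT (Closeds X) := inferInstance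
  have key : ∀ (C : Closeds X) (Y : Scheme.{0}) (y : Y ⟶ X), IsClosedImmersion y → Set.range y = C → T.Finite Y n := by
    intro C
    induction C using hwf.induction with
    | ind C ih =>
      intro Y y hy hr
      rcases isEmpty_or_nonempty Y with hY | ⟨⟨y0⟩⟩
      · exact finite_empty hT h Y hY
      obtain ⟨U, hU, hy0, _⟩ := exists_isAffineOpen_mem_and_subset (U := (⊤ : Y.Opens)) (x := y0) trivial
      have hYa := hX.closed y hy
      obtain ⟨C', c, hc, hr'⟩ := exists_closed Y U
      have hd : IsDecomposition c U.ι := ⟨hc, inferInstance, by rw [Scheme.Opens.range_ι, hr', compl_compl]⟩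
      have h1 : T.Finite C' n := by
        refine ih ⟨Set.range (c ≫ y), (c ≫ y).isClosedEmbedding.isClosed_range⟩ ?_ C' (c ≫ y) inferInstance rfl
        refine lt_of_le_of_ne ?_ ?_
        · intro x hx
          obtain ⟨z, rfl⟩ := hx
          have : y (c z) ∈ Set.range y := ⟨_, rfl⟩
          rw [hr] at this
          exact this
        · intro heq
          have h2 : y y0 ∈ (C : Set X) := by rw [← hr]; exact ⟨_, rfl⟩
          rw [← heq] at h2
          obtain ⟨z, hz⟩ := h2
          have h3 : c z = y0 := y.isClosedEmbedding.injective hz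
          have h4 : c z ∈ (U : Set Y)ᶜ := by rw [← hr']; exact ⟨_, rfl⟩
          rw [h3] at h4
          exact h4 hy0
      have h2 : T.Finite (U : Scheme.{0}) n := by
        have : IsAffine (U : Scheme.{0}) := hU
        have hUa := hYa.opens U.ι inferInstance
        have hS : IsArithmetic (Spec Γ((U : Scheme.{0}), ⊤)) :=
          hUa.of_hom (U : Scheme.{0}).isoSpec.inv inferInstance inferInstance inferInstance
        exact finite_iso hT (U : Scheme.{0}).isoSpec.symm (finite_affine hT hn h _ (finiteType_of_isArithmetic _ hS))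
      exact finite_middle hT hYa hd hn h1 h2
  exact key ⊤ X (𝟙 X) inferInstance (by simp)

end CycleTheory

end Pool.Agent.T6.H33.EC
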