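import Pool.Agent.T6.H33.EC.Main

/-! # The affine line and the multiplicative group over principal open subschemes of affine spaces -/

set_option autoImplicit false

open AlgebraicGeometry CategoryTheory TopologicalSpace

namespace Pool.Agent.T6.H33.EC

open Polynomial in
/-- A localisation of `(ℤ[x_1, …, x_N])[t]` away from one element is a localisation of `ℤ[x_1, …, x_(N + 1)]` away from one
element. -/
theorem exists_equiv (N : ℕ) (g : (MvPolynomial (Fin N) ℤ)[X]) (B : Type) [CommRing B] [Algebra (MvPolynomial (Fin N) ℤ)[X] B]
    [IsLocalization.Away g B] : ∃ f : MvPolynomial (Fin (N + 1)) ℤ, Nonempty (Localization.Away f ≃+* B) := by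
  let e : MvPolynomial (Fin (N + 1)) ℤ ≃+* (MvPolynomial (Fin N) ℤ)[X] := (MvPolynomial.finSuccEquiv ℤ N).toRingEquiv
  refine ⟨e.symm g, ⟨IsLocalization.ringEquivOfRingEquiv (M := Submonoid.powers (e.symm g)) (T := Submonoid.powers g)
    (Localization.Away (e.symm g)) B e ?_⟩⟩
  rw [Submonoid.map_powers]
  congr 1
  exact e.apply_symm_apply g

open Polynomial in
theorem exists_line (N : ℕ) (f : MvPolynomial (Fin N) ℤ) :
    ∃ g : MvPolynomial (Fin (N + 1)) ℤ, Nonempty (Localization.Away g ≃+* (Localization.Away f)[X]) := by
  let R := MvPolynomial (Fin N) ℤ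
  let : Algebra R[X] (Localization.Away f)[X] := (mapRingHom (algebraMap R (Localization.Away f))).toAlgebra
  have h : IsLocalization ((Submonoid.powers f).map C) (Localization.Away f)[X] :=
    Polynomial.isLocalization (Submonoid.powers f) (Localization.Away f)
  rw [Submonoid.map_powers] at h
  have h' : IsLocalization.Away (C f : R[X]) (Localization.Away f)[X] := h
  exact exists_equiv N (C f) _

open Polynomial in
theorem exists_mul (N : ℕ) (f : MvPolynomial (Fin N) ℤ) :
    ∃ g : MvPolynomial (Fin (N + 1)) ℤ, Nonempty (Localization.Away g ≃+* Localization.Away (X : (Localization.Away f)[X])) := by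
  let R := MvPolynomial (Fin N) ℤ
  let a1 : Algebra R[X] (Localization.Away f)[X] := (mapRingHom (algebraMap R (Localization.Away f))).toAlgebra
  have h : IsLocalization ((Submonoid.powers f).map C) (Localization.Away f)[X] :=
    Polynomial.isLocalization (Submonoid.powers f) (Localization.Away f)
  rw [Submonoid.map_powers] at h
  have h' : IsLocalization.Away (C f : R[X]) (Localization.Away f)[X] := h
  have a3 : IsScalarTower R[X] (Localization.Away f)[X] (Localization.Away (X : (Localization.Away f)[X])) := inferInstance
  have e1 : algebraMap R[X] (Localization.Away f)[X] X = X := by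
    change mapRingHom _ X = X
    simp
  have h3 : IsLocalization.Away (algebraMap R[X] (Localization.Away f)[X] X)
      (Localization.Away (X : (Localization.Away f)[X])) := by
    rw [e1]
    infer_instance
  have h4 : IsLocalization.Away (X * C f : R[X]) (Localization.Away (X : (Localization.Away f)[X])) :=
    IsLocalization.Away.mul (Localization.Away f)[X] _ (C f) X
  exact exists_equiv N (X * C f) (Localization.Away (X : (Localization.Away f)[X]))

/-- the isomorphism of schemes -/
noncomputable def specIso {A B : Type} [CommRing A] [CommRing B] (e : A ≃+* B) :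
    Spec (.of B) ≅ Spec (.of A) := Scheme.Spec.mapIso e.toCommRingCatIso.op

theorem finiteType_away {N : ℕ} (f : MvPolynomial (Fin N) ℤ) : (Int.castRingHom (Localization.Away f)).FiniteType := by
  refine finiteType_of_isArithmetic (.of (Localization.Away f)) ?_
  exact ((aff_arithmetic N).opens (basic f).ι inferInstance).of_hom (basicIso f).inv inferInstance inferInstance inferInstance

namespace CycleTheory

variable {T : CycleTheory} (hT : T.HasLocalisation) (hL : T.HasAffineLine)

include hT hL in
/-- from the weight `n` to the weight `n - 1` -/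
theorem weight_step {n : ℤ} (hn : n < 0)
    (h : ∀ (N : ℕ) (f : MvPolynomial (Fin N) ℤ), T.Finite (Spec (.of (Localization.Away f))) n)
    (N : ℕ) (f : MvPolynomial (Fin N) ℤ) : T.Finite (Spec (.of (Localization.Away f))) (n - 1) := fun i => by
  obtain ⟨g, ⟨e⟩⟩ := exists_line N f
  obtain ⟨e'⟩ := hL.line (Localization.Away f) (finiteType_away f) n (i - 2) hn
  rw [sub_add_cancel] at e'
  exact fg_of_equiv e' (finite_iso hT (specIso e).symm (h _ g) (i - 2))

open Polynomial in
/-- the decomposition of the affine line -/
theorem decomposition_line (A : Type) [CommRing A] :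
    IsDecomposition (Spec.map (CommRingCat.ofHom (Polynomial.evalRingHom (0 : A))))
      (Spec.map (CommRingCat.ofHom (algebraMap A[X] (Localization.Away (X : A[X]))))) := by
  refine ⟨?_, ?_, ?_⟩
  · exact IsClosedImmersion.spec_of_surjective _ fun a => ⟨C a, by simp⟩
  · infer_instance
  · have h1 : Set.range (PrimeSpectrum.comap (algebraMap A[X] (Localization.Away (X : A[X])))) =
        PrimeSpectrum.basicOpen (X : A[X]) := PrimeSpectrum.localization_away_comap_range _ _
    have h2 : Set.range (PrimeSpectrum.comap (Polynomial.evalRingHom (0 : A))) =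
        PrimeSpectrum.zeroLocus (RingHom.ker (Polynomial.evalRingHom (0 : A)) : Set A[X]) :=
      range_comap_of_surjective _ _ fun a => ⟨C a, by simp⟩
    change Set.range (PrimeSpectrum.comap (algebraMap A[X] (Localization.Away (X : A[X])))) =
      (Set.range (PrimeSpectrum.comap (Polynomial.evalRingHom (0 : A))))ᶜ
    rw [h1, h2, Polynomial.ker_evalRingHom, PrimeSpectrum.zeroLocus_span, PrimeSpectrum.basicOpen_eq_zeroLocus_compl]
    simp

include hT hL in
/-- from the degree `i` to the degree `i + 1` -/
theorem degree_step {n : ℤ} (hn : n < 0) (i : ℤ)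
    (h : ∀ (N : ℕ) (f : MvPolynomial (Fin N) ℤ), AddGroup.FG (T.H (Spec (.of (Localization.Away f))) n i))
    (N : ℕ) (f : MvPolynomial (Fin N) ℤ) : AddGroup.FG (T.H (Spec (.of (Localization.Away f))) n (i + 1)) := by
  obtain ⟨g, ⟨e⟩⟩ := exists_mul N f
  obtain ⟨g', ⟨e'⟩⟩ := exists_line N f
  have hA : IsArithmetic (Spec (.of (Polynomial (Localization.Away f)))) :=
    (isArithmetic_spec _ (finiteType_away g')).of_hom (specIso e').hom inferInstance inferInstance inferInstance
  have hd := decomposition_line (Localization.Away f)
  refine fg_of_surjective (T.bd (Spec.map (CommRingCat.ofHom (Polynomial.evalRingHom (0 : Localization.Away f))))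
    (Spec.map (CommRingCat.ofHom (algebraMap (Polynomial (Localization.Away f))
      (Localization.Away (Polynomial.X : Polynomial (Localization.Away f)))))) n i) (fun x => ?_) ?_
  · exact (hT.exact_bd _ _ hA hd n i hn x).mp (hL.zero _ (finiteType_away f) n (i + 1) hn x)
  · obtain ⟨e''⟩ := hT.iso (specIso e).symm n i
    exact fg_of_equiv e'' (h _ g)

include hT hL in
/-- **The reduction.** -/
theorem finiteGeneration_iff : T.FiniteGeneration ↔ ∀ i₀ : ℤ, ∃ i ≤ i₀, ∀ (N : ℕ) (f : MvPolynomial (Fin N) ℤ),
    AddGroup.FG (T.H (Spec (.of (Localization.Away f))) (-1) i) := by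
  constructor
  · intro h i₀
    exact ⟨i₀, le_rfl, fun N f => h _ (isArithmetic_spec _ (finiteType_away f)) _ _ (by norm_num)⟩
  · intro h
    have h1 : ∀ (N : ℕ) (f : MvPolynomial (Fin N) ℤ), T.Finite (Spec (.of (Localization.Away f))) (-1) := by
      intro N f i
      obtain ⟨j, hj, hjf⟩ := h i
      obtain ⟨k, rfl⟩ : ∃ k : ℕ, i = j + k := ⟨(i - j).toNat, by omega⟩
      have : ∀ (k : ℕ) (N : ℕ) (f : MvPolynomial (Fin N) ℤ),
          AddGroup.FG (T.H (Spec (.of (Localization.Away f))) (-1) (j + k)) := by
        intro k
        induction k with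
        | zero =>
          intro N f
          rw [Nat.cast_zero, add_zero]
          exact hjf N f
        | succ k ih =>
          intro N f
          have := degree_step hT hL (by norm_num) (j + k) ih N f
          rw [add_assoc] at this
          exact_mod_cast this
      exact this k N f
    have h2 : ∀ (m : ℕ) (N : ℕ) (f : MvPolynomial (Fin N) ℤ), T.Finite (Spec (.of (Localization.Away f))) (-1 - m) := by
      intro m
      induction m with
      | zero =>
        intro N f
        rw [Nat.cast_zero, sub_zero]
        exact h1 N f
      | succ m ih =>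
        intro N f
        have := weight_step hT hL (by omega) ih N f
        rw [sub_sub] at this
        exact_mod_cast this
    intro X hX n i hn
    obtain ⟨m, rfl⟩ : ∃ m : ℕ, n = -1 - m := ⟨(-1 - n).toNat, by omega⟩
    exact finite_all hT hn (h2 m) X hX i

end CycleTheory

end Pool.Agent.T6.H33.EC
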