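import Pool.Agent.T6.H33.EC.Rings

/-! # Transfers: reduction to one model of a finite extension of each field -/

set_option autoImplicit false

open AlgebraicGeometry CategoryTheory TopologicalSpace

namespace Pool.Agent.T6.H33.EC

/-- a homomorphism with finite kernel to a finitely generated group -/
theorem fg_of_transfer {A B : Type} [AddCommGroup A] [AddCommGroup B] (a : A →+ B) (b : B →+ A) (d : ℕ)
    (h : ∀ x, b (a x) = d • x) (hfin : Set.Finite {x : A | d • x = 0}) (hB : AddGroup.FG B) : AddGroup.FG A := by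
  rw [← Module.Finite.iff_addGroup_fg] at hB ⊢
  have h1 : (LinearMap.ker a.toIntLinearMap).FG := by
    have h2 : Set.Finite (LinearMap.ker a.toIntLinearMap : Set A) := by
      refine hfin.subset fun x hx => ?_
      have hx' : a x = 0 := hx
      change d • x = 0
      rw [← h, hx', map_zero]
    exact ⟨h2.toFinset, by rw [Set.Finite.coe_toFinset, Submodule.span_eq]⟩
  have h2 : (LinearMap.range a.toIntLinearMap).FG := IsNoetherian.noetherian _
  refine ⟨Submodule.fg_of_fg_map_of_fg_inf_ker a.toIntLinearMap ?_ ?_⟩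
  · rwa [Submodule.map_top]
  · rwa [top_inf_eq]

namespace CycleTheory

variable {T : CycleTheory} (hT : T.HasLocalisation) (hR : T.HasTransfer)

include hR in
theorem finite_transfer {V U : Scheme.{0}} (π : V ⟶ U) (hU : IsArithmetic U) (hUi : IsIntegral U) (h1 : IsFinite π)
    (h2 : Flat π) (h3 : Surjective π) {n : ℤ} (hn : n < 0) (h : T.Finite V n) : T.Finite U n := fun i => by
  obtain ⟨d, hd, h4⟩ := hR.transfer π hU hUi h1 h2 h3
  obtain ⟨a, b, hab⟩ := h4 n i hn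
  exact fg_of_transfer a b d hab (hR.torsion U hU n i hn d hd) (h i)

include hT in
/-- a surjective closed immersion -/
theorem finite_surjective {Z X : Scheme.{0}} (f : Z ⟶ X) (hf : IsClosedImmersion f) (hs : Surjective f) (hX : IsArithmetic X)
    {n : ℤ} (hn : n < 0) (h0 : ∀ Y : Scheme.{0}, IsEmpty Y → T.Finite Y n) (h : T.Finite Z n) : T.Finite X n := by
  have hd : IsDecomposition f (⊥ : X.Opens).ι := by
    refine ⟨hf, inferInstance, ?_⟩
    rw [Scheme.Opens.range_ι, hs.surj.range_eq, Set.compl_univ]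
    rfl
  exact finite_middle hT hX hd hn h (h0 _ ⟨fun x => x.2⟩)

include hT in
/-- the union of two closed subsets -/
theorem finite_union {Y : Scheme.{0}} (hY : IsArithmetic Y) {n : ℤ} (hn : n < 0)
    (h0 : ∀ Z : Scheme.{0}, IsEmpty Z → T.Finite Z n) (U₁ U₂ : Y.Opens) (hU : U₁ ⊓ U₂ = ⊥)
    (h : ∀ (Z : Scheme.{0}) (f : Z ⟶ Y), IsClosedImmersion f → Set.range f ⊆ (U₁ : Set Y)ᶜ → T.Finite Z n)
    (h' : ∀ (Z : Scheme.{0}) (f : Z ⟶ Y), IsClosedImmersion f → Set.range f ⊆ (U₂ : Set Y)ᶜ → T.Finite Z n) :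
    T.Finite Y n := by
  obtain ⟨C₁, c₁, hc₁, hr₁⟩ := exists_closed Y U₁
  obtain ⟨C₂, c₂, hc₂, hr₂⟩ := exists_closed Y U₂
  have hd : IsDecomposition c₁ U₁.ι := ⟨hc₁, inferInstance, by rw [Scheme.Opens.range_ι, hr₁, compl_compl]⟩
  refine finite_middle hT hY hd hn (h _ c₁ hc₁ hr₁.le) ?_
  -- `U₁` is covered by the open subscheme `c₂ ⁻¹ U₁` of `C₂`
  have hs : Surjective (c₂ ∣_ U₁) := by
    refine ⟨fun w => ?_⟩
    have hw : w.1 ∈ Set.range c₂ := by
      rw [hr₂]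
      intro hw2
      have : w.1 ∈ U₁ ⊓ U₂ := ⟨w.2, hw2⟩
      rw [hU] at this
      exact this
    obtain ⟨v, hv⟩ := hw
    have hmem : v ∈ c₂ ⁻¹ᵁ U₁ := by
      change c₂ v ∈ U₁
      rw [hv]
      exact w.2
    exact ⟨⟨v, hmem⟩, Subtype.ext (by rw [morphismRestrict_base_coe]; exact hv)⟩
  refine finite_surjective hT (c₂ ∣_ U₁) inferInstance hs (hY.opens U₁.ι inferInstance) hn h0 ?_
  have hC₂ := hY.closed c₂ hc₂
  obtain ⟨C₃, c₃, hc₃, hr₃⟩ := exists_closed C₂ (c₂ ⁻¹ᵁ U₁)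
  have hd' : IsDecomposition c₃ (c₂ ⁻¹ᵁ U₁).ι := ⟨hc₃, inferInstance, by rw [Scheme.Opens.range_ι, hr₃, compl_compl]⟩
  refine finite_open hT hC₂ hd' hn (h' _ (c₃ ≫ c₂) inferInstance ?_) (h' _ c₂ hc₂ hr₂.le)
  rintro _ ⟨z, rfl⟩
  rw [← hr₂]
  exact ⟨c₃ z, rfl⟩

end CycleTheory

end Pool.Agent.T6.H33.EC
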