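import Pool.Agent.T6.H33.EC.Basic

/-! # Open subschemes of affine spaces -/

set_option autoImplicit false

open AlgebraicGeometry CategoryTheory TopologicalSpace

namespace Pool.Agent.T6.H33.EC

/-- every closed subset is the range of a closed immersion -/
theorem exists_closed (X : Scheme.{0}) (U : X.Opens) : ∃ (C : Scheme.{0}) (c : C ⟶ X), IsClosedImmersion c ∧
    Set.range c = (U : Set X)ᶜ := by
  refine ⟨_, (Scheme.IdealSheafData.vanishingIdeal U.compl).subschemeι, inferInstance, ?_⟩
  rw [Scheme.IdealSheafData.range_subschemeι, Scheme.IdealSheafData.coe_support_vanishingIdeal]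
  rfl

/-- the decomposition of an open subscheme -/
theorem decomposition_opens {X C : Scheme.{0}} (c : C ⟶ X) (hc : IsClosedImmersion c) (U : X.Opens)
    (hU : Set.range c = (U : Set X)ᶜ) (W V : X.Opens) (hV : V ≤ W) (hVU : V = U ⊓ W) :
    IsDecomposition (c ∣_ W) (X.homOfLE hV) := by
  refine ⟨inferInstance, inferInstance, ?_⟩
  ext w
  have h1 : w ∈ Set.range (X.homOfLE hV) ↔ w.1 ∈ V := by
    constructor
    · rintro ⟨v, rfl⟩
      rw [Scheme.homOfLE_apply]
      exact v.2
    · intro h
      exact ⟨⟨w.1, h⟩, Subtype.ext (by rw [Scheme.homOfLE_apply])⟩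
  have h2 : w ∈ Set.range (c ∣_ W) ↔ w.1 ∈ Set.range c := by
    constructor
    · rintro ⟨v, rfl⟩
      rw [morphismRestrict_base_coe]
      exact ⟨_, rfl⟩
    · rintro ⟨v, hv⟩
      have hmem : v ∈ c ⁻¹ᵁ W := by
        change c v ∈ W
        rw [hv]
        exact w.2
      exact ⟨⟨v, hmem⟩, Subtype.ext (by rw [morphismRestrict_base_coe]; exact hv)⟩
  rw [Set.mem_compl_iff, h1, h2, hU, Set.mem_compl_iff, not_not, hVU]
  exact ⟨fun h => h.1, fun h => ⟨h, w.2⟩⟩

namespace CycleTheory

variable {T : CycleTheory} (hT : T.HasLocalisation)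

include hT in
theorem finite_sup {X : Scheme.{0}} (hX : IsArithmetic X) {n : ℤ} (hn : n < 0) (U V : X.Opens) (hU : T.Finite U n)
    (hV : T.Finite V n) (hUV : T.Finite ((U ⊓ V : X.Opens) : Scheme.{0}) n) :
    T.Finite ((U ⊔ V : X.Opens) : Scheme.{0}) n := by
  obtain ⟨C, c, hc, hr⟩ := exists_closed X U
  have d1 := decomposition_opens c hc U hr V (U ⊓ V) inf_le_right rfl
  have d2 := decomposition_opens c hc U hr (U ⊔ V) U le_sup_left (by rw [inf_sup_self])
  have h1 := finite_closed hT (hX.opens V.ι inferInstance) d1 hn hUV hV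
  have h2 : c ⁻¹ᵁ (U ⊔ V) = c ⁻¹ᵁ V := by
    ext x
    change c x ∈ (U ⊔ V : X.Opens) ↔ c x ∈ V
    have hx : c x ∉ U := by
      have : c x ∈ Set.range c := ⟨x, rfl⟩
      rw [hr] at this
      exact this
    constructor
    · rintro (h | h)
      · exact absurd h hx
      · exact h
    · exact fun h => Or.inr h
  have h3 : T.Finite ((c ⁻¹ᵁ (U ⊔ V) : C.Opens) : Scheme.{0}) n := by
    rw [h2]
    exact h1
  exact finite_middle hT (hX.opens (U ⊔ V).ι inferInstance) d2 hn h3 hU

end CycleTheory

/-- the affine space of dimension `N` over `ℤ` -/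
noncomputable abbrev Aff (N : ℕ) : Scheme.{0} := Spec (.of (MvPolynomial (Fin N) ℤ))

theorem finiteType_poly (N : ℕ) : (Int.castRingHom (MvPolynomial (Fin N) ℤ)).FiniteType := by
  have h : Algebra.FiniteType ℤ (MvPolynomial (Fin N) ℤ) := inferInstance
  have h1 : (algebraMap ℤ (MvPolynomial (Fin N) ℤ)).FiniteType := RingHom.finiteType_algebraMap.mpr h
  rwa [show Int.castRingHom (MvPolynomial (Fin N) ℤ) = algebraMap ℤ (MvPolynomial (Fin N) ℤ) from Subsingleton.elim _ _]

theorem aff_arithmetic (N : ℕ) : IsArithmetic (Aff N) := isArithmetic_spec _ (finiteType_poly N)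

/-- the principal open subschemes -/
noncomputable def basic {N : ℕ} (f : MvPolynomial (Fin N) ℤ) : (Aff N).Opens := PrimeSpectrum.basicOpen f

theorem mem_basic {N : ℕ} (f : MvPolynomial (Fin N) ℤ) (x : Aff N) : x ∈ basic f ↔ f ∉ x.asIdeal := Iff.rfl

noncomputable def basicIso {N : ℕ} (f : MvPolynomial (Fin N) ℤ) :
    (basic f).toScheme ≅ Spec (.of (Localization.Away f)) :=
  basicOpenIsoSpecAway (R := .of (MvPolynomial (Fin N) ℤ)) f

namespace CycleTheory

variable {T : CycleTheory} (hT : T.HasLocalisation)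

include hT in
theorem finite_iSup {n : ℤ} (hn : n < 0) {N : ℕ}
    (h : ∀ f : MvPolynomial (Fin N) ℤ, T.Finite (Spec (.of (Localization.Away f))) n) (m : ℕ)
    (f : Fin m → MvPolynomial (Fin N) ℤ) : T.Finite ((⨆ j, basic (f j) : (Aff N).Opens) : Scheme.{0}) n := by
  induction m with
  | zero =>
    have h0 : (⨆ j, basic (f j) : (Aff N).Opens) = basic (0 : MvPolynomial (Fin N) ℤ) := by
      rw [iSup_of_empty]
      exact (PrimeSpectrum.basicOpen_zero).symm
    rw [h0]
    exact finite_iso hT (basicIso 0).symm (h 0)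
  | succ m ih =>
    have h0 : (⨆ j, basic (f j) : (Aff N).Opens) = basic (f 0) ⊔ ⨆ j : Fin m, basic (f j.succ) := by
      apply le_antisymm
      · refine iSup_le fun j => ?_
        refine Fin.cases le_sup_left (fun j => ?_) j
        exact le_sup_of_le_right (le_iSup (fun j : Fin m => basic (f j.succ)) j)
      · exact sup_le (le_iSup (fun j => basic (f j)) 0) (iSup_le fun j => le_iSup (fun j => basic (f j)) j.succ)
    have h1 : (basic (f 0) ⊓ ⨆ j : Fin m, basic (f j.succ) : (Aff N).Opens) = ⨆ j : Fin m, basic (f 0 * f j.succ) := by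
      rw [inf_iSup_eq]
      refine iSup_congr fun j => ?_
      exact (PrimeSpectrum.basicOpen_mul _ _).symm
    rw [h0]
    refine finite_sup hT (aff_arithmetic N) hn _ _ (finite_iso hT (basicIso _).symm (h _)) (ih _) ?_
    rw [h1]
    exact ih _

include hT in
/-- all open subschemes of affine spaces -/
theorem finite_opens {n : ℤ} (hn : n < 0) {N : ℕ}
    (h : ∀ f : MvPolynomial (Fin N) ℤ, T.Finite (Spec (.of (Localization.Away f))) n) (U : (Aff N).Opens) :
    T.Finite (U : Scheme.{0}) n := by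
  obtain ⟨s, hs⟩ := (PrimeSpectrum.isOpen_iff (R := MvPolynomial (Fin N) ℤ) _).mp U.2
  have hI : (Ideal.span s).FG := IsNoetherian.noetherian _
  obtain ⟨m, f, hf⟩ := Submodule.fg_iff_exists_fin_generating_family.mp hI
  have h0 : U = ⨆ j, basic (f j) := by
    refine SetLike.ext fun x => ?_
    have h1 : x ∈ U ↔ ¬ (s ⊆ (x.asIdeal : Set (MvPolynomial (Fin N) ℤ))) := by
      have h2 : x ∈ U.carrierᶜ ↔ s ⊆ (x.asIdeal : Set (MvPolynomial (Fin N) ℤ)) := by
        constructor
        · intro hx
          have hx' : x ∈ PrimeSpectrum.zeroLocus s := hs ▸ hx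
          exact hx'
        · intro hx
          have hx' : x ∈ PrimeSpectrum.zeroLocus s := hx
          exact hs ▸ hx'
      rw [← h2]
      exact not_not.symm
    have h3 : x ∈ (⨆ j, basic (f j) : (Aff N).Opens) ↔ ∃ j, f j ∉ x.asIdeal := by
      rw [Opens.mem_iSup]
      rfl
    rw [h1, h3, ← Ideal.span_le, ← not_forall, ← hf]
    change ¬ Submodule.span _ (Set.range f) ≤ x.asIdeal ↔ _
    rw [Submodule.span_le, Set.range_subset_iff]
    rfl
  rw [h0]
  exact finite_iSup hT hn h m f

end CycleTheory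

end Pool.Agent.T6.H33.EC
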